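import Mathlib
import Pool.Agent.W2helper2.RG.Stm1

/-!
# Project RG, piece DEN: elements fixed by the decomposition group
-/

set_option autoImplicit false

namespace Pool.Agent.W2helper9.RG

open NumberField
open Pool.Agent.TH841.SH.D (Gal)
open Pool.Agent.W2helper2.RG

instance galPc {p : ℕ} [Fact p.Prime] : IsGalois ℚ_[p] (PadicAlgCl p) :=
  inferInstanceAs (IsGalois ℚ_[p] (AlgebraicClosure ℚ_[p]))

/-- restriction of an automorphism -/
lemma exists_restr' {F : Type} [Field F] [CharZero F] {p : ℕ} [Fact p.Prime]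
    (ι : AlgebraicClosure F →+* PadicAlgCl p) (τ : PadicAlgCl p ≃ₐ[ℚ_[p]] PadicAlgCl p)
    (h : ∀ f : F, τ (ι (algebraMap F _ f)) = ι (algebraMap F _ f)) :
    ∃ σ : Gal F, ∀ x, τ (ι x) = ι (σ x) := by
  let _ : Algebra (AlgebraicClosure F) (PadicAlgCl p) := ι.toAlgebra
  let _ : Algebra F (PadicAlgCl p) := (ι.comp (algebraMap F (AlgebraicClosure F))).toAlgebra
  have : IsScalarTower F (AlgebraicClosure F) (PadicAlgCl p) :=
    IsScalarTower.of_algebraMap_eq (fun x => rfl)
  have : Normal F (AlgebraicClosure F) := IsAlgClosure.normal F _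
  let τ' : PadicAlgCl p ≃ₐ[F] PadicAlgCl p := AlgEquiv.ofRingEquiv (f := τ.toRingEquiv) h
  exact ⟨τ'.restrictNormal (AlgebraicClosure F), fun x =>
    (AlgEquiv.restrictNormal_commutes τ' (AlgebraicClosure F) x).symm⟩

lemma rat_mem_closure {p : ℕ} [Fact p.Prime] (R : Subring (PadicAlgCl p))
    (hR : ∀ r : ℚ, (r : PadicAlgCl p) ∈ R) (q : ℚ_[p]) :
    algebraMap ℚ_[p] (PadicAlgCl p) q ∈ R.topologicalClosure := by
  show _ ∈ closure (R : Set (PadicAlgCl p))
  rw [Metric.mem_closure_iff]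
  intro ε hε
  obtain ⟨r, hr⟩ := Padic.rat_dense p q hε
  refine ⟨(r : PadicAlgCl p), hR r, ?_⟩
  rw [dist_eq_norm]
  have h1 : algebraMap ℚ_[p] (PadicAlgCl p) q - (r : PadicAlgCl p) =
      algebraMap ℚ_[p] (PadicAlgCl p) (q - r) := by
    rw [map_sub, map_ratCast]
  rw [h1]
  have h2 := PadicAlgCl.norm_extends p (q - (r : ℚ_[p]))
  have h3 : ‖algebraMap ℚ_[p] (PadicAlgCl p) (q - r)‖ = ‖q - (r : ℚ_[p])‖ := h2
  rw [h3]
  exact hr

theorem den : P_DEN := by
  intro F L _ _ _ _ _ e p _ ι x hx ε hε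
  set S : Set (PadicAlgCl p) := Set.range (fun y : L => ι (e y)) with hS
  -- the Galois theory
  have h1 : ι x ∈ IntermediateField.adjoin ℚ_[p] S := by
    rw [← InfiniteGalois.fixedField_fixingSubgroup (IntermediateField.adjoin ℚ_[p] S),
      IntermediateField.mem_fixedField_iff]
    intro τ hτ
    have hfix : ∀ y : L, τ (ι (e y)) = ι (e y) := fun y =>
      (IntermediateField.mem_fixingSubgroup_iff _ _).1 hτ _
        (IntermediateField.subset_adjoin _ _ ⟨y, rfl⟩)
    obtain ⟨σ, hσ⟩ := exists_restr' ι τ (fun f => by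
      have := hfix (algebraMap F L f)
      rwa [e.commutes] at this)
    have h2 : σ x = x := by
      apply hx σ ⟨τ, hσ⟩
      intro y
      apply ι.injective
      rw [← hσ, hfix]
    rw [hσ, h2]
  -- the closure
  let R : Subring (PadicAlgCl p) := (ι.comp (e : L →+* AlgebraicClosure F)).range
  have hR : ∀ r : ℚ, (r : PadicAlgCl p) ∈ R := fun r => ⟨(r : L), by simp⟩
  let A : Subalgebra ℚ_[p] (PadicAlgCl p) :=
    { R.topologicalClosure.toSubsemiring with
      algebraMap_mem' := fun q => rat_mem_closure R hR q }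
  have h3 : Algebra.adjoin ℚ_[p] S ≤ A := by
    apply Algebra.adjoin_le
    rintro _ ⟨y, rfl⟩
    exact R.le_topologicalClosure ⟨y, rfl⟩
  have h4 : ι x ∈ A := by
    apply h3
    rw [← IntermediateField.adjoin_toSubalgebra_of_isAlgebraic
      (fun z _ => Algebra.IsAlgebraic.isAlgebraic z)]
    exact h1
  have h5 : ι x ∈ closure (R : Set (PadicAlgCl p)) := h4
  obtain ⟨b, ⟨t, rfl⟩, hb⟩ := Metric.mem_closure_iff.1 h5 ε hε
  exact ⟨t, by rw [dist_eq_norm] at hb; exact hb⟩

end Pool.Agent.W2helper9.RG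

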