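import Mathlib
import Pool.Agent.W2helper2.RG.Stm
import Pool.Agent.Y715.Nr

/-!
# Project RG, piece KUR: the fields are unramified outside `2`, `3` and the primes `7 mod 12`
-/

set_option autoImplicit false

namespace Pool.Agent.W2helper9.RG.Kur

open NumberField IsDedekindDomain Polynomial
open Pool.Agent.W2helper24.TQ (Ram)
open Pool.Agent.W2helper2.RG
open Pool.Agent.W237.RK (kur)

/-- (after `Pool.Agent.Y696.unr_g`) -/
lemma unr_g {F K : Type} [Field F] [NumberField F] [Field K] [NumberField K] [Algebra F K]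
    [IsGalois F K] (v : HeightOneSpectrum (𝓞 K))
    (hv : Algebra.IsUnramifiedAt (𝓞 F) v.asIdeal)
    {g : Gal(K/F)} (hg : ∀ x : 𝓞 K, g • x - x ∈ v.asIdeal) : g = 1 := by
  have h1 : v.asIdeal.ramificationIdx (𝓞 F) = 1 := Ideal.ramificationIdx_eq_one _ _
  let p := v.asIdeal.under (𝓞 F)
  have hlo : v.asIdeal.LiesOver p := ⟨rfl⟩
  have hpp : p.IsPrime := inferInstance
  have hp0 : p ≠ ⊥ := fun h => v.ne_bot (Ideal.eq_bot_of_comap_eq_bot h)
  have : p.IsMaximal := hpp.isMaximal hp0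
  have : Finite (𝓞 F ⧸ p) := Ideal.finiteQuotientOfFreeOfNeBot p hp0
  have : Finite p.ResidueField := by
    have := Ideal.bijective_algebraMap_quotient_residueField p
    exact Finite.of_surjective _ this.2
  have h2 := Ideal.card_inertia_eq_ramificationIdxIn (G := Gal(K/F)) p v.asIdeal
  rw [Ideal.ramificationIdxIn_eq_ramificationIdx p v.asIdeal Gal(K/F), h1] at h2
  have h3 : g ∈ Ideal.inertia Gal(K/F) v.asIdeal := by
    rw [AddSubgroup.mem_inertia]
    exact hg
  have h4 : Ideal.inertia Gal(K/F) v.asIdeal = ⊥ := Subgroup.card_eq_one.1 h2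
  rw [h4] at h3
  exact h3

/-- integral elements have norm at most one -/
lemma norm_le_one {p : ℕ} [Fact p.Prime] {z : PadicAlgCl p} (hz : IsIntegral ℤ z) : ‖z‖ ≤ 1 := by
  obtain ⟨f, hm, hf⟩ := hz
  by_contra hcon
  have h1 : 1 < ‖z‖ := not_le.mp hcon
  have hn : f.natDegree ≠ 0 := by
    intro h
    have : f = 1 := hm.natDegree_eq_zero.mp h
    rw [this, eval₂_one] at hf
    exact one_ne_zero hf
  rw [eval₂_eq_sum_range, Finset.sum_range_succ, hm.coeff_natDegree, map_one, one_mul] at hf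
  have h2 : z ^ f.natDegree =
      - ∑ i ∈ Finset.range f.natDegree, (algebraMap ℤ (PadicAlgCl p)) (f.coeff i) * z ^ i := by
    rw [eq_neg_iff_add_eq_zero, add_comm]
    exact hf
  have h3 : ‖∑ i ∈ Finset.range f.natDegree,
      (algebraMap ℤ (PadicAlgCl p)) (f.coeff i) * z ^ i‖ ≤ ‖z‖ ^ (f.natDegree - 1) := by
    apply IsUltrametricDist.norm_sum_le_of_forall_le_of_nonneg (by positivity)
    intro i hi
    rw [norm_mul, norm_pow]
    have h4 : ‖(algebraMap ℤ (PadicAlgCl p)) (f.coeff i)‖ ≤ 1 := by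
      rw [eq_intCast]
      exact IsUltrametricDist.norm_intCast_le_one (PadicAlgCl p) _
    calc ‖(algebraMap ℤ (PadicAlgCl p)) (f.coeff i)‖ * ‖z‖ ^ i ≤ 1 * ‖z‖ ^ i :=
          mul_le_mul_of_nonneg_right h4 (by positivity)
      _ = ‖z‖ ^ i := one_mul _
      _ ≤ ‖z‖ ^ (f.natDegree - 1) := pow_le_pow_right₀ h1.le (by
          have := Finset.mem_range.mp hi; omega)
  have h5 : ‖z‖ ^ f.natDegree ≤ ‖z‖ ^ (f.natDegree - 1) := by
    rw [← norm_pow, h2, norm_neg]
    exact h3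
  have h6 : ‖z‖ ^ (f.natDegree - 1) < ‖z‖ ^ f.natDegree := pow_lt_pow_right₀ h1 (by omega)
  linarith

lemma norm_p_lt {p : ℕ} [Fact p.Prime] : ‖(p : PadicAlgCl p)‖ < 1 := by
  have h : (p : PadicAlgCl p) = algebraMap ℚ_[p] (PadicAlgCl p) (p : ℚ_[p]) := by
    rw [map_natCast]
  rw [h, norm_algebraMap']
  exact Padic.norm_p_lt_one

section place
variable {F : Type} [Field F] {p : ℕ} [Fact p.Prime] (j : F →+* PadicAlgCl p)

lemma int_le (x : 𝓞 F) : ‖j (algebraMap (𝓞 F) F x)‖ ≤ 1 := by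
  apply norm_le_one
  have h1 : IsIntegral ℤ (algebraMap (𝓞 F) F x) := x.2
  exact h1.map (j.toIntAlgHom)

/-- the prime of `F` given by an embedding -/
noncomputable def pl [NumberField F] : HeightOneSpectrum (𝓞 F) where
  asIdeal :=
    { carrier := {x | ‖j (algebraMap (𝓞 F) F x)‖ < 1}
      add_mem' := by
        intro a b ha hb
        have h1 : ‖j (algebraMap (𝓞 F) F a)‖ < 1 := ha
        have h2 : ‖j (algebraMap (𝓞 F) F b)‖ < 1 := hb
        show ‖j (algebraMap (𝓞 F) F (a + b))‖ < 1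
        rw [map_add, map_add]
        exact (IsUltrametricDist.norm_add_le_max _ _).trans_lt (max_lt h1 h2)
      zero_mem' := by
        show ‖j (algebraMap (𝓞 F) F 0)‖ < 1
        rw [map_zero, map_zero, norm_zero]
        exact zero_lt_one
      smul_mem' := by
        intro c a ha
        have h1 : ‖j (algebraMap (𝓞 F) F a)‖ < 1 := ha
        show ‖j (algebraMap (𝓞 F) F (c • a))‖ < 1
        rw [smul_eq_mul, map_mul, map_mul, norm_mul]
        have h2 := int_le j c
        calc ‖j (algebraMap (𝓞 F) F c)‖ * ‖j (algebraMap (𝓞 F) F a)‖ ≤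
              1 * ‖j (algebraMap (𝓞 F) F a)‖ := mul_le_mul_of_nonneg_right h2 (norm_nonneg _)
          _ < 1 := by rw [one_mul]; exact h1 }
  isPrime := by
    refine ⟨?_, ?_⟩
    · rw [Ne, Ideal.eq_top_iff_one]
      intro h
      have h1 : ‖j (algebraMap (𝓞 F) F 1)‖ < 1 := h
      rw [map_one, map_one, norm_one] at h1
      exact lt_irrefl _ h1
    · intro a b hab
      have h1 : ‖j (algebraMap (𝓞 F) F (a * b))‖ < 1 := hab
      rw [map_mul, map_mul, norm_mul] at h1
      by_contra hcon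
      push Not at hcon
      have h2 : ‖j (algebraMap (𝓞 F) F a)‖ = 1 := le_antisymm (int_le j a) (not_lt.1 hcon.1)
      have h3 : ‖j (algebraMap (𝓞 F) F b)‖ = 1 := le_antisymm (int_le j b) (not_lt.1 hcon.2)
      rw [h2, h3, one_mul] at h1
      exact lt_irrefl _ h1
  ne_bot := by
    intro h
    have h1 : ((p : ℕ) : 𝓞 F) ∈ (⊥ : Ideal (𝓞 F)) := by
      rw [← h]
      show ‖j (algebraMap (𝓞 F) F ((p : ℕ) : 𝓞 F))‖ < 1
      rw [map_natCast, map_natCast]
      exact norm_p_lt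
    rw [Ideal.mem_bot] at h1
    exact (Fact.out : p.Prime).ne_zero (by exact_mod_cast h1)

lemma mem_pl [NumberField F] (x : 𝓞 F) :
    x ∈ (pl j).asIdeal ↔ ‖j (algebraMap (𝓞 F) F x)‖ < 1 := Iff.rfl

end place

/-- restriction of an automorphism -/
lemma exists_restr2 {K F : Type} [Field K] [Field F] [Algebra K F] [Normal K F]
    {p : ℕ} [Fact p.Prime] (j : F →+* PadicAlgCl p) (τ : PadicAlgCl p ≃ₐ[ℚ_[p]] PadicAlgCl p)
    (h : ∀ f : K, τ (j (algebraMap K F f)) = j (algebraMap K F f)) :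
    ∃ σ : F ≃ₐ[K] F, ∀ x, τ (j x) = j (σ x) := by
  let _ : Algebra F (PadicAlgCl p) := j.toAlgebra
  let _ : Algebra K (PadicAlgCl p) := (j.comp (algebraMap K F)).toAlgebra
  have : IsScalarTower K F (PadicAlgCl p) :=
    IsScalarTower.of_algebraMap_eq (fun x => rfl)
  let τ' : PadicAlgCl p ≃ₐ[K] PadicAlgCl p := AlgEquiv.ofRingEquiv (f := τ.toRingEquiv) h
  exact ⟨τ'.restrictNormal F, fun x =>
    (AlgEquiv.restrictNormal_commutes τ' F x).symm⟩

lemma two_nsq : ¬ IsSquare (2 : ZMod 3) := by decide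

/-- `3 s ^ 2 ≡ 1` modulo `p` -/
lemma exists_s {p : ℕ} [Fact p.Prime] (h : p % 12 = 11) :
    ∃ s : ℤ, (p : ℤ) ∣ 1 - 3 * s ^ 2 := by
  have hp3 : p ≠ 3 := by
    rintro rfl
    norm_num at h
  have : Fact (Nat.Prime 3) := ⟨Nat.prime_three⟩
  have h1 : IsSquare ((3 : ℕ) : ZMod p) := by
    rw [ZMod.exists_sq_eq_prime_iff_of_mod_four_eq_three (p := p) (q := 3) (by omega) (by norm_num)
      hp3]
    have h2 : (p : ZMod 3) = 2 := by
      have h3 : p = 3 * (p / 3) + 2 := by omega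
      rw [h3]
      push_cast
      have h4 : (3 : ZMod 3) = 0 := rfl
      rw [h4, zero_mul, zero_add]
    rw [h2]
    exact two_nsq
  obtain ⟨r, hr⟩ := h1
  have h30 : ((3 : ℕ) : ZMod p) ≠ 0 := by
    intro h0
    rw [ZMod.natCast_eq_zero_iff] at h0
    exact hp3 ((Nat.prime_dvd_prime_iff_eq Fact.out Nat.prime_three).1 h0)
  have hr0 : r ≠ 0 := by
    rintro rfl
    rw [mul_zero] at hr
    exact h30 hr
  refine ⟨(r⁻¹ : ZMod p).val, ?_⟩
  rw [← ZMod.intCast_zmod_eq_zero_iff_dvd]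
  push_cast
  rw [ZMod.natCast_zmod_val]
  have h5 : (3 : ZMod p) = r * r := by
    rw [← hr]
    norm_num
  rw [h5]
  field_simp
  ring

lemma exists_t {p : ℕ} [Fact p.Prime] (h : p % 4 ≠ 3) :
    ∃ s : ℤ, (p : ℤ) ∣ s ^ 2 + 1 := by
  obtain ⟨r, hr⟩ := (ZMod.exists_sq_eq_neg_one_iff (p := p)).2 h
  refine ⟨r.val, ?_⟩
  rw [← ZMod.intCast_zmod_eq_zero_iff_dvd]
  push_cast
  rw [ZMod.natCast_zmod_val, pow_two, ← hr]
  ring

theorem kurr : P_KUR := by
  intro K F _ _ _ _ _ _ _ hram p _ hp2 hp3 hp7 ι x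
  have hp : p.Prime := Fact.out
  set j : F →+* PadicAlgCl p := ι.comp (algebraMap F (AlgebraicClosure F)) with hj
  show j x ∈ kur p
  have hζ := IsCyclotomicExtension.zeta_spec 3 ℚ K
  set ζ := IsCyclotomicExtension.zeta 3 ℚ K
  have hrel : hζ.toInteger ^ 2 + hζ.toInteger + 1 = 0 := by
    have h3 : hζ.toInteger ^ 3 = 1 := hζ.toInteger_isPrimitiveRoot.pow_eq_one
    have h4 : hζ.toInteger ≠ 1 := hζ.toInteger_isPrimitiveRoot.ne_one (by norm_num)
    have h5 : (hζ.toInteger - 1) * (hζ.toInteger ^ 2 + hζ.toInteger + 1) = 0 := by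
      linear_combination h3
    exact (mul_eq_zero.1 h5).resolve_left (sub_ne_zero.2 h4)
  -- a square root of `-1` in the residue field
  have hsq : ∃ y : 𝓞 K, ∃ z : 𝓞 K, y ^ 2 + 1 = (p : 𝓞 K) * z := by
    by_cases h4 : p % 4 = 3
    · have h11 : p % 12 = 11 := by
        have h12 : p % 12 = 3 ∨ p % 12 = 7 ∨ p % 12 = 11 := by omega
        rcases h12 with h12 | h12 | h12
        · exfalso
          have h13 : 3 ∣ p := by omega
          exact hp3 ((Nat.prime_dvd_prime_iff_eq Nat.prime_three hp).1 h13).symm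
        · exact absurd h12 hp7
        · exact h12
      obtain ⟨s, u, hu⟩ := exists_s h11
      refine ⟨(2 * hζ.toInteger + 1) * (s : 𝓞 K), (u : 𝓞 K), ?_⟩
      have hu' : ((1 - 3 * s ^ 2 : ℤ) : 𝓞 K) = ((p * u : ℤ) : 𝓞 K) := by rw [hu]
      push_cast at hu'
      linear_combination hu' + 4 * (s : 𝓞 K) ^ 2 * hrel
    · obtain ⟨s, u, hu⟩ := exists_t h4
      refine ⟨(s : 𝓞 K), (u : 𝓞 K), ?_⟩
      have hu' : ((s ^ 2 + 1 : ℤ) : 𝓞 K) = ((p * u : ℤ) : 𝓞 K) := by rw [hu]
      push_cast at hu'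
      linear_combination hu'
  -- the prime is unramified
  have hunr : Algebra.IsUnramifiedAt (𝓞 K) (pl j).asIdeal := by
    by_contra hcon
    obtain ⟨-, h1⟩ := hram (pl j) hcon
    obtain ⟨y, z, hyz⟩ := hsq
    apply h1 y
    rw [hyz, map_mul, map_natCast]
    apply Ideal.mul_mem_right
    rw [mem_pl, map_natCast, map_natCast]
    exact norm_p_lt
  -- Galois theory
  apply Pool.Agent.Y715.Nr.mem_kur
  intro τ hτ
  have hK : ∀ f : K, τ (j (algebraMap K F f)) = j (algebraMap K F f) := by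
    have h1 : j (algebraMap K F ζ) ∈ kur p := by
      apply IntermediateField.subset_adjoin
      refine ⟨3, ?_, ?_⟩
      · intro h3
        exact hp3 ((Nat.prime_dvd_prime_iff_eq hp Nat.prime_three).1 h3)
      · rw [← map_pow, ← map_pow, hζ.pow_eq_one, map_one, map_one]
    let f1 : K →+* PadicAlgCl p := (τ : PadicAlgCl p →+* PadicAlgCl p).comp (j.comp (algebraMap K F))
    let f2 : K →+* PadicAlgCl p := j.comp (algebraMap K F)
    have h2 : f1.toRatAlgHom = f2.toRatAlgHom := by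
      apply (hζ.powerBasis ℚ).algHom_ext
      rw [IsPrimitiveRoot.powerBasis_gen]
      exact hτ _ h1
    intro f
    exact congrArg (fun g : K →ₐ[ℚ] PadicAlgCl p => g f) h2
  obtain ⟨g, hg⟩ := exists_restr2 j τ hK
  have hine := Pool.Agent.Y715.Nr.inert_of_kur hτ
  have hg1 : g = 1 := by
    apply unr_g (pl j) hunr
    intro y
    rw [mem_pl, map_sub, map_sub]
    have h3 : j (algebraMap (𝓞 F) F (g • y)) = τ (j (algebraMap (𝓞 F) F y)) := by
      rw [hg]
      rfl
    rw [h3]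
    exact hine _ (int_le j y)
  rw [hg, hg1]
  rfl

end Pool.Agent.W2helper9.RG.Kur

namespace Pool.Agent.W2helper9.RG

theorem kurr : Pool.Agent.W2helper2.RG.P_KUR := Kur.kurr

end Pool.Agent.W2helper9.RG
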